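import Pool.Agent.H.MP_7325c9_al.Trk

set_option autoImplicit false

namespace Pool.Agent.H.MP_7325c9_al

open Classical

variable {V : Type} {Γ : SimpleGraph V} {σ : Equiv.Perm V}

noncomputable def dl (Γ : SimpleGraph V) (σ : Equiv.Perm V) :
    Option (V → Option Bool) → Y V → Option (V → Option Bool)
  | none, _ => none
  | some T, (some v, ε) => if T v = some (!ε) then none else
      some (fun u => if u = v then some ε else if Γ.Adj u v then T u else none)
  | some T, (none, true) => some (fun u => T (σ⁻¹ u))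
  | some T, (none, false) => some (fun u => T (σ u))

def s0 : Option (V → Option Bool) := some (fun _ => none)

theorem dl_none (y : Y V) : dl Γ σ none y = none := rfl

theorem aut2 (l : List (Y V)) : ∀ T, l.foldl (dl Γ σ) s0 = some T → ∀ u ε, T u = some ε →
    ∃ l1 x l2, l = l1 ++ (some x, ε) :: l2 ∧ Trk Γ σ x l2 u := by
  induction l using List.reverseRecOn with
  | nil =>
    intro T hT u ε hu
    simp only [List.foldl_nil, s0, Option.some.injEq] at hT
    subst hT; simp at hu
  | append_singleton l y ih =>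
    intro T hT u ε hu
    rw [List.foldl_append, List.foldl_cons, List.foldl_nil] at hT
    cases hS : l.foldl (dl Γ σ) s0 with
    | none => rw [hS, dl_none] at hT; cases hT
    | some S =>
      rw [hS] at hT
      obtain ⟨a, δ⟩ := y
      cases a with
      | some v =>
        simp only [dl] at hT
        split_ifs at hT with h1
        simp only [Option.some.injEq] at hT
        subst hT
        by_cases h2 : u = v
        · simp only [h2, if_true, Option.some.injEq] at hu
          subst hu h2
          exact ⟨l, u, [], rfl, Trk.nil _⟩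
        · by_cases h3 : Γ.Adj u v
          · simp only [h2, h3, if_true, if_false] at hu
            obtain ⟨l1, x, l2, rfl, h4⟩ := ih S hS u ε hu
            exact ⟨l1, x, l2 ++ [(some v, δ)], by simp, h4.snoc (y := (some v, δ)) h3.symm⟩
          · simp [h2, h3] at hu
      | none =>
        cases δ
        · simp only [dl, Option.some.injEq] at hT
          subst hT
          obtain ⟨l1, x, l2, rfl, h4⟩ := ih S hS (σ u) ε hu
          refine ⟨l1, x, l2 ++ [(none, false)], by simp, ?_⟩
          have := h4.snoc (y := (none, false)) trivial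
          simpa [mv] using this
        · simp only [dl, Option.some.injEq] at hT
          subst hT
          obtain ⟨l1, x, l2, rfl, h4⟩ := ih S hS (σ⁻¹ u) ε hu
          refine ⟨l1, x, l2 ++ [(none, true)], by simp, ?_⟩
          have := h4.snoc (y := (none, true)) trivial
          simpa [mv] using this

theorem aut3 (l : List (Y V)) (h : l.foldl (dl Γ σ) s0 = none) :
    ∃ l1 x ε l2 d, l = l1 ++ (some x, ε) :: l2 ∧ Canc Γ σ ε x l2 d := by
  induction l using List.reverseRecOn with
  | nil => simp [s0] at h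
  | append_singleton l y ih =>
    rw [List.foldl_append, List.foldl_cons, List.foldl_nil] at h
    cases hS : l.foldl (dl Γ σ) s0 with
    | none =>
      obtain ⟨l1, x, ε, l2, d, rfl, h2⟩ := ih hS
      exact ⟨l1, x, ε, l2 ++ [y], d, by simp, h2.append _⟩
    | some S =>
      rw [hS] at h
      obtain ⟨a, δ⟩ := y
      cases a with
      | some v =>
        simp only [dl] at h
        split_ifs at h with h1
        obtain ⟨l1, x, l2, rfl, h4⟩ := aut2 l S hS v _ h1
        refine ⟨l1, x, !δ, l2 ++ [(some v, δ)], l2.length + 0, by simp, h4.canc ?_⟩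
        have := Canc.here (Γ := Γ) (σ := σ) (ε := !δ) v []
        rwa [Bool.not_not] at this
      | none => cases δ <;> simp [dl] at h

theorem aa_append (a b : List (Y V)) : aa (a ++ b) = aa a + aa b := by simp [aa]

theorem bb_append (a b : List (Y V)) : bb (a ++ b) = bb a + bb b := by simp [bb]

theorem aa_pw (w : List (Y V)) (N : ℕ) : aa (pw w N) = N * aa w := by
  induction N with
  | zero => simp [pw, aa]
  | succ n ih => rw [pw, aa_append, ih]; ring

theorem eval_pw (w : List (Y V)) (N : ℕ) : eval Γ σ (pw w N) = eval Γ σ w ^ N := by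
  induction N with
  | zero => simp [pw, eval_nil]
  | succ n ih => rw [pw, eval_append, ih, pow_succ']

theorem aut1 [Fintype V] (l : List (Y V)) : ∀ T, l.foldl (dl Γ σ) s0 = some T →
    (∀ u, hd (run Γ σ (fun _ => []) l) u = T u) ∧ size (run Γ σ (fun _ => []) l) = aa l := by
  induction l using List.reverseRecOn with
  | nil =>
    intro T hT
    simp only [List.foldl_nil, s0, Option.some.injEq] at hT
    subst hT
    simp [run, hd, size, aa]
  | append_singleton l y ih =>
    intro T hT
    rw [List.foldl_append, List.foldl_cons, List.foldl_nil] at hT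
    have hr : run Γ σ (fun _ => []) (l ++ [y]) = step Γ σ (run Γ σ (fun _ => []) l) y := by
      simp [run]
    rw [hr, aa_append]
    cases hS : l.foldl (dl Γ σ) s0 with
    | none => rw [hS, dl_none] at hT; cases hT
    | some S =>
      rw [hS] at hT
      obtain ⟨h1, h2⟩ := ih S hS
      obtain ⟨a, δ⟩ := y
      cases a with
      | some v =>
        simp only [dl] at hT
        split_ifs at hT with h3
        simp only [Option.some.injEq] at hT
        subst hT
        rw [← h1] at h3
        simp only [step]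
        rw [pp_of_ne h3, size_push, h2]
        refine ⟨fun u => ?_, by simp [aa]⟩
        rw [hd_push, h1]
      | none =>
        cases δ
        · simp only [dl, Option.some.injEq] at hT
          subst hT
          simp only [step]
          rw [size_rel, h2]
          exact ⟨fun u => h1 _, by simp [aa]⟩
        · simp only [dl, Option.some.injEq] at hT
          subst hT
          simp only [step]
          rw [size_rel, h2]
          exact ⟨fun u => h1 _, by simp [aa]⟩

theorem eval_surj (g : PresentedGroup (rels Γ σ)) : ∃ w, eval Γ σ w = g := by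
  obtain ⟨f, rfl⟩ := PresentedGroup.mk_surjective _ g
  induction f using FreeGroup.induction_on with
  | C1 => exact ⟨[], by simp [eval_nil]⟩
  | of x => exact ⟨[(x, true)], by simp [eval, ev]; rfl⟩
  | inv_of x _ => exact ⟨[(x, false)], by simp [eval, ev]; rfl⟩
  | mul x y hx hy =>
    obtain ⟨a, ha⟩ := hx
    obtain ⟨b, hb⟩ := hy
    exact ⟨a ++ b, by rw [eval_append, ha, hb, map_mul]⟩

theorem aa_le [Fintype V] (h : IsAut Γ σ) {w w' : List (Y V)}
    (hw : ∀ N, (pw w N).foldl (dl Γ σ) s0 ≠ none)
    (hc : IsConj (eval Γ σ w) (eval Γ σ w')) : aa w ≤ aa w' := by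
  obtain ⟨c, hc⟩ := isConj_iff.1 hc
  obtain ⟨a, ha⟩ := eval_surj (Γ := Γ) (σ := σ) c⁻¹
  obtain ⟨b, hb⟩ := eval_surj (Γ := Γ) (σ := σ) c
  have key : ∀ N, N * aa w ≤ aa a + N * aa w' + aa b := by
    intro N
    have e : eval Γ σ (pw w N) = eval Γ σ (a ++ pw w' N ++ b) := by
      rw [eval_append, eval_append, eval_pw, eval_pw, ha, hb, ← hc, conj_pow]; group
    obtain ⟨T, hT⟩ := Option.ne_none_iff_exists'.1 (hw N)
    have h1 := (aut1 _ T hT).2
    have h2 := size_run (Γ := Γ) (σ := σ) (a ++ pw w' N ++ b) (fun _ => [])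
    rw [← run_eq h e, h1, aa_append, aa_append, aa_pw, aa_pw] at h2
    simpa [size] using h2
  by_contra hlt
  have h1 := key (aa a + aa b + 1)
  have h2 : aa w' + 1 ≤ aa w := by omega
  have h3 := Nat.mul_le_mul_left (aa a + aa b + 1) h2
  nlinarith

def kz1 : Y V → ℤ
  | (some _, _) => 0
  | (none, true) => 1
  | (none, false) => -1

def kz (w : List (Y V)) : ℤ := (w.map kz1).sum

theorem kz_append (a b : List (Y V)) : kz (a ++ b) = kz a + kz b := by simp [kz]

def kf (m : ℕ) : Option V → Multiplicative (ZMod m)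
  | some _ => 1
  | none => Multiplicative.ofAdd 1

theorem kf_rels : ∀ r ∈ rels Γ σ, FreeGroup.lift (kf (V := V) (orderOf σ)) r = 1 := by
  rintro r (⟨u, v, huv, rfl⟩ | rfl | ⟨v, rfl⟩)
  · simp [kf]
  · simp only [map_pow, FreeGroup.lift_apply_of, kf]
    rw [← ofAdd_nsmul]; simp
  · simp [kf]

theorem kap_eval (w : List (Y V)) : PresentedGroup.toGroup (kf_rels (Γ := Γ) (σ := σ)) (eval Γ σ w) =
    Multiplicative.ofAdd ((kz w : ℤ) : ZMod (orderOf σ)) := by
  induction w with
  | nil => simp [eval_nil, kz]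
  | cons y w ih =>
    rw [eval_cons, map_mul, ih]
    obtain ⟨a, ε⟩ := y
    cases a <;> cases ε <;> simp [ev, kf, kz, kz1, ofAdd_add]

theorem kz_conj {w w' : List (Y V)} (hc : IsConj (eval Γ σ w) (eval Γ σ w')) :
    ((kz w : ℤ) : ZMod (orderOf σ)) = kz w' := by
  have := (PresentedGroup.toGroup (kf_rels (Γ := Γ) (σ := σ))).map_isConj hc
  rw [isConj_iff_eq, kap_eval, kap_eval] at this
  exact Multiplicative.ofAdd.injective this

theorem ev_t (ε : Bool) : ev Γ σ (none, ε) = PresentedGroup.of none ^ kz1 (V := V) (none, ε) := by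
  cases ε <;> simp [ev, kz1]

theorem tpass (ε : Bool) (u : List (Y V)) (hu : ∀ y ∈ u, y.1.isSome) :
    ∃ u' : List (Y V), (∀ y ∈ u', y.1.isSome) ∧ u'.length = u.length ∧
      ev Γ σ (none, ε) * eval Γ σ u = eval Γ σ u' * ev Γ σ (none, ε) := by
  induction u with
  | nil => exact ⟨[], by simp, rfl, by simp [eval_nil]⟩
  | cons y u ih =>
    obtain ⟨u', h1, h2, h3⟩ := ih fun z hz => hu z (List.mem_cons_of_mem _ hz)
    obtain ⟨a, δ⟩ := y
    have := hu _ List.mem_cons_self
    cases a with
    | none => simp at this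
    | some v =>
      have e := ev_swap (Γ := Γ) (σ := σ) (v := mv σ v (none, !ε)) (y := (none, ε)) δ trivial
      have e2 : mv σ (mv σ v (none, !ε)) (none, ε) = v := by cases ε <;> simp [mv]
      rw [e2] at e
      refine ⟨(some (mv σ v (none, !ε)), δ) :: u', ?_, by simp [h2], ?_⟩
      · intro z hz
        rcases List.mem_cons.1 hz with rfl | hz
        · rfl
        · exact h1 z hz
      · rw [eval_cons, eval_cons, ← mul_assoc, ← e, mul_assoc, h3, mul_assoc]

theorem nf (w : List (Y V)) : ∃ u : List (Y V), (∀ y ∈ u, y.1.isSome) ∧ u.length = aa w ∧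
    eval Γ σ w = eval Γ σ u * PresentedGroup.of none ^ kz w := by
  induction w with
  | nil => exact ⟨[], by simp, rfl, by simp [kz]⟩
  | cons y w ih =>
    obtain ⟨u, h1, h2, h3⟩ := ih
    obtain ⟨a, ε⟩ := y
    cases a with
    | some v =>
      refine ⟨(some v, ε) :: u, ?_, by simp [aa] at *; omega, ?_⟩
      · intro z hz
        rcases List.mem_cons.1 hz with rfl | hz
        · rfl
        · exact h1 z hz
      · rw [eval_cons, eval_cons, h3, mul_assoc]; simp [kz, kz1]
    | none =>
      obtain ⟨u', h4, h5, h6⟩ := tpass (Γ := Γ) (σ := σ) ε u h1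
      refine ⟨u', h4, by simp [aa] at *; omega, ?_⟩
      rw [eval_cons, h3, ← mul_assoc, h6, mul_assoc, ev_t, ← zpow_add]
      simp [kz]

theorem tword (w : List (Y V)) : ∃ s : List (Y V), s.length = bb w ∧
    eval Γ σ s = PresentedGroup.of none ^ kz w := by
  induction w with
  | nil => exact ⟨[], rfl, by simp [kz, eval_nil]⟩
  | cons y w ih =>
    obtain ⟨s, h1, h2⟩ := ih
    obtain ⟨a, ε⟩ := y
    cases a with
    | some v => exact ⟨s, by simp [bb] at *; omega, by rw [h2]; simp [kz, kz1]⟩
    | none =>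
      refine ⟨(none, ε) :: s, by simp [bb] at *; omega, ?_⟩
      rw [eval_cons, h2, ev_t, ← zpow_add]; simp [kz]

theorem t_zpow_eq {a b : ℤ} (h : (a : ZMod (orderOf σ)) = b) :
    (PresentedGroup.of none : PresentedGroup (rels Γ σ)) ^ a = PresentedGroup.of none ^ b := by
  rw [ZMod.intCast_eq_intCast_iff_dvd_sub] at h
  obtain ⟨c, hc⟩ := h
  have : b = a + orderOf σ * c := by linarith
  rw [this, zpow_add, zpow_mul, zpow_natCast, t_pow, one_zpow, mul_one]

def CG (Γ : SimpleGraph V) (σ : Equiv.Perm V) (w : List (Y V)) : Prop :=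
  ∀ w', IsConj (eval Γ σ w) (eval Γ σ w') → w.length ≤ w'.length

def TMin (m : ℕ) (k : ZMod m) (b : ℕ) : Prop :=
  ∀ w' : List (Y V), ((kz w' : ℤ) : ZMod m) = k → b ≤ bb w'

theorem cg_iff [Fintype V] (h : IsAut Γ σ) (w : List (Y V)) : CG Γ σ w ↔
    TMin (V := V) (orderOf σ) (kz w) (bb w) ∧ ∀ N, (pw w N).foldl (dl Γ σ) s0 ≠ none := by
  constructor
  · intro hw
    constructor
    · intro w' hk
      obtain ⟨u, -, h2, h3⟩ := nf (Γ := Γ) (σ := σ) w
      obtain ⟨s, h4, h5⟩ := tword (Γ := Γ) (σ := σ) w'
      have e : eval Γ σ w = eval Γ σ (u ++ s) := by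
        rw [eval_append, h3, h5, t_zpow_eq hk]
      have := hw (u ++ s) (by rw [e])
      rw [List.length_append, h2, h4, aa_add_bb] at this
      omega
    · intro N hN
      obtain ⟨l1, x, ε, l2, d, e, hc⟩ := aut3 _ hN
      obtain ⟨w2, h1, h2⟩ := shorten' h e hc
      exact absurd (hw w2 h1) (by omega)
  · rintro ⟨h1, h2⟩ w' hc
    have h3 := aa_le h h2 hc
    have h4 := h1 w' (kz_conj hc).symm
    rw [aa_add_bb, aa_add_bb]; omega

theorem tmin_lt {m : ℕ} [NeZero m] {k : ZMod m} {b : ℕ} (h : TMin (V := V) m k b) : b < m := by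
  have h1 := h (List.replicate k.val (none, true)) (by simp [kz, kz1])
  have h2 : bb (List.replicate k.val ((none, true) : Y V)) = k.val := by
    simp [bb, List.countP_replicate]
  have := ZMod.val_lt k
  omega

theorem fold_pw {w w' : List (Y V)} (h : ∀ s, w.foldl (dl Γ σ) s = w'.foldl (dl Γ σ) s) (N : ℕ) :
    ∀ s, (pw w N).foldl (dl Γ σ) s = (pw w' N).foldl (dl Γ σ) s := by
  induction N with
  | zero => intro s; rfl
  | succ n ih => intro s; rw [pw, pw, List.foldl_append, List.foldl_append, h, ih]

noncomputable def ff (Γ : SimpleGraph V) (σ : Equiv.Perm V) (w : List (Y V)) :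
    (Option (V → Option Bool) → Option (V → Option Bool)) × ZMod (orderOf σ) × Fin (orderOf σ + 1) :=
  (fun s => w.foldl (dl Γ σ) s, ((kz w : ℤ) : ZMod (orderOf σ)),
    ⟨min (bb w) (orderOf σ), by omega⟩)

theorem cg_congr [Fintype V] (h : IsAut Γ σ) {w w' : List (Y V)} (e : ff Γ σ w = ff Γ σ w')
    (z : List (Y V)) (hz : CG Γ σ (w ++ z)) : CG Γ σ (w' ++ z) := by
  haveI : NeZero (orderOf σ) := ⟨(orderOf_pos σ).ne'⟩
  simp only [ff, Prod.mk.injEq, Fin.mk.injEq] at e
  obtain ⟨e1, e2, e3⟩ := e
  rw [cg_iff h] at hz ⊢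
  obtain ⟨h1, h2⟩ := hz
  constructor
  · have h3 := tmin_lt h1
    rw [bb_append] at h1 h3 ⊢
    have h4 : bb w' = bb w := by omega
    rw [h4, kz_append, Int.cast_add, ← e2, ← Int.cast_add, ← kz_append]
    exact h1
  · intro N
    rw [← fold_pw (w := w ++ z)]
    · exact h2 N
    · intro s
      rw [List.foldl_append, List.foldl_append, congrFun e1 s]

theorem regular [Fintype V] (h : IsAut Γ σ) :
    ∃ L : Language (Y V), L.IsRegular ∧ ∀ w, w ∈ L ↔ CG Γ σ w := by
  haveI : NeZero (orderOf σ) := ⟨(orderOf_pos σ).ne'⟩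
  let L : Language (Y V) := {w | CG Γ σ w}
  refine ⟨L, ?_, fun w => Iff.rfl⟩
  apply Language.IsRegular.of_finite_range_leftQuotient
  let F : (Option (V → Option Bool) → Option (V → Option Bool)) × ZMod (orderOf σ) ×
      Fin (orderOf σ + 1) → Language (Y V) := fun c => {z | ∃ w, ff Γ σ w = c ∧ CG Γ σ (w ++ z)}
  refine (Set.finite_range F).subset ?_
  rintro _ ⟨w, rfl⟩
  refine ⟨ff Γ σ w, ?_⟩
  ext z
  constructor
  · rintro ⟨w', e, hz⟩
    exact cg_congr h e z hz
  · intro hz
    exact ⟨w, rfl, hz⟩

end Pool.Agent.H.MP_7325c9_al
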