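import Mathlib

set_option autoImplicit false

namespace Pool.Agent.H.MP_7325c9_al

open Classical

variable {V : Type}

abbrev Y (V : Type) := Option V × Bool

def rels (Γ : SimpleGraph V) (σ : Equiv.Perm V) : Set (FreeGroup (Option V)) :=
  {r | (∃ u v, Γ.Adj u v ∧ r = FreeGroup.of (some u) * FreeGroup.of (some v) *
      (FreeGroup.of (some u))⁻¹ * (FreeGroup.of (some v))⁻¹) ∨
    r = FreeGroup.of none ^ orderOf σ ∨
    ∃ v, r = (FreeGroup.of none)⁻¹ * FreeGroup.of (some v) * FreeGroup.of none *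
      (FreeGroup.of (some (σ v)))⁻¹}

def ev (Γ : SimpleGraph V) (σ : Equiv.Perm V) (y : Y V) : PresentedGroup (rels Γ σ) :=
  if y.2 = true then PresentedGroup.of y.1 else (PresentedGroup.of y.1)⁻¹

def eval (Γ : SimpleGraph V) (σ : Equiv.Perm V) (w : List (Y V)) : PresentedGroup (rels Γ σ) :=
  (w.map (ev Γ σ)).prod

abbrev Pil (V : Type) := V → List (Option Bool)

def hd (p : Pil V) (v : V) : Option Bool := (p v).head?.join

noncomputable def push (Γ : SimpleGraph V) (p : Pil V) (v : V) (ε : Bool) : Pil V :=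
  fun u => if u = v then some ε :: p u else if Γ.Adj u v then p u else none :: p u

noncomputable def pop (Γ : SimpleGraph V) (p : Pil V) (v : V) : Pil V :=
  fun u => if Γ.Adj u v then p u else (p u).tail

noncomputable def pp (Γ : SimpleGraph V) (p : Pil V) (v : V) (ε : Bool) : Pil V :=
  if hd p v = some (!ε) then pop Γ p v else push Γ p v ε

inductive Valid (Γ : SimpleGraph V) : Pil V → Prop
  | nil : Valid Γ (fun _ => [])
  | push (p : Pil V) (v : V) (ε : Bool) : Valid Γ p → hd p v ≠ some (!ε) → Valid Γ (push Γ p v ε)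

variable {Γ : SimpleGraph V}

theorem pop_push (p : Pil V) (v : V) (ε : Bool) : pop Γ (push Γ p v ε) v = p := by
  funext u
  unfold pop push
  by_cases h1 : u = v
  · subst h1; simp
  · by_cases h2 : Γ.Adj u v <;> simp [h1, h2]

theorem hd_push (p : Pil V) (v : V) (ε : Bool) (u : V) :
    hd (push Γ p v ε) u = if u = v then some ε else if Γ.Adj u v then hd p u else none := by
  unfold hd push
  by_cases h1 : u = v
  · simp [h1]
  · by_cases h2 : Γ.Adj u v <;> simp [h1, h2]

theorem push_comm (p : Pil V) {v w : V} (h : Γ.Adj v w) (ε δ : Bool) :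
    push Γ (push Γ p v ε) w δ = push Γ (push Γ p w δ) v ε := by
  funext u
  unfold push
  have hne : v ≠ w := h.ne
  by_cases h1 : u = v
  · subst h1; simp [h, hne]
  · by_cases h2 : u = w
    · subst h2; simp [h.symm, h1]
    · by_cases h3 : Γ.Adj u v <;> by_cases h4 : Γ.Adj u w <;> simp [h1, h2, h3, h4]

theorem decomp {p : Pil V} (hp : Valid Γ p) (v : V) (ε : Bool) (h : hd p v = some ε) :
    ∃ q, Valid Γ q ∧ hd q v ≠ some (!ε) ∧ p = push Γ q v ε := by
  induction hp with
  | nil => simp [hd] at h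
  | push q w δ hq hw ih =>
    rw [hd_push] at h
    by_cases h1 : v = w
    · subst h1
      simp only [if_true, Option.some.injEq] at h
      subst h
      exact ⟨q, hq, hw, rfl⟩
    · by_cases h2 : Γ.Adj v w
      · simp only [h1, h2, if_true, if_false] at h
        obtain ⟨q', hq', hv, rfl⟩ := ih h
        refine ⟨push Γ q' w δ, Valid.push _ _ _ hq' ?_, ?_, push_comm _ h2 _ _⟩
        · rw [hd_push] at hw
          simpa [Ne.symm h1, h2.symm] using hw
        · rw [hd_push]; simpa [h1, h2] using hv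
      · simp [h1, h2] at h

theorem pp_valid {p : Pil V} (hp : Valid Γ p) (v : V) (ε : Bool) : Valid Γ (pp Γ p v ε) := by
  unfold pp
  split_ifs with h
  · obtain ⟨q, hq, -, rfl⟩ := decomp hp v _ h
    rw [pop_push]; exact hq
  · exact Valid.push _ _ _ hp h

theorem pp_push (q : Pil V) (v : V) (ε : Bool) : pp Γ (push Γ q v ε) v (!ε) = q := by
  unfold pp
  rw [if_pos (by rw [hd_push]; simp), pop_push]

theorem pp_of_ne {q : Pil V} {v : V} {ε : Bool} (h : hd q v ≠ some (!ε)) :
    pp Γ q v ε = push Γ q v ε := by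
  unfold pp; rw [if_neg h]

theorem pp_inv {p : Pil V} (hp : Valid Γ p) (v : V) (ε : Bool) :
    pp Γ (pp Γ p v ε) v (!ε) = p := by
  by_cases h : hd p v = some (!ε)
  · obtain ⟨q, hq, hv, rfl⟩ := decomp hp v _ h
    have := pp_push (Γ := Γ) q v (!ε)
    rw [Bool.not_not] at this
    rw [this, pp_of_ne hv]
  · rw [pp_of_ne h, pp_push]

theorem pp_comm_aux {q : Pil V} {v w : V} (h : Γ.Adj v w) (ε δ : Bool)
    (hw : hd q w ≠ some (!δ)) :
    pp Γ (pp Γ (push Γ q v (!ε)) v ε) w δ = pp Γ (pp Γ (push Γ q v (!ε)) w δ) v ε := by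
  have h1 := pp_push (Γ := Γ) q v (!ε)
  rw [Bool.not_not] at h1
  have h2 : hd (push Γ q v (!ε)) w ≠ some (!δ) := by
    rw [hd_push]; simpa [h.ne', h.symm] using hw
  rw [h1, pp_of_ne hw, pp_of_ne h2, push_comm _ h]
  have h3 := pp_push (Γ := Γ) (push Γ q w δ) v (!ε)
  rw [Bool.not_not] at h3
  rw [h3]

theorem pp_comm {p : Pil V} (hp : Valid Γ p) {v w : V} (h : Γ.Adj v w) (ε δ : Bool) :
    pp Γ (pp Γ p v ε) w δ = pp Γ (pp Γ p w δ) v ε := by
  by_cases h1 : hd p v = some (!ε)
  · obtain ⟨q, hq, hv, rfl⟩ := decomp hp v _ h1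
    by_cases h2 : hd q w = some (!δ)
    · obtain ⟨r, hr, hw, rfl⟩ := decomp hq w _ h2
      have e1 := pp_push (Γ := Γ) (push Γ r w (!δ)) v (!ε)
      have e2 := pp_push (Γ := Γ) r w (!δ)
      have e3 := pp_push (Γ := Γ) (push Γ r v (!ε)) w (!δ)
      have e4 := pp_push (Γ := Γ) r v (!ε)
      rw [Bool.not_not] at e1 e2 e3 e4
      rw [e1, e2, push_comm _ h.symm, e3, e4]
    · exact pp_comm_aux h ε δ h2
  · by_cases h2 : hd p w = some (!δ)
    · obtain ⟨q, hq, hw, rfl⟩ := decomp hp w _ h2
      have h3 : hd q v ≠ some (!ε) := by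
        rw [hd_push] at h1; simpa [h.ne, h] using h1
      exact (pp_comm_aux h.symm δ ε h3).symm
    · have h3 : hd (push Γ p v ε) w ≠ some (!δ) := by
        rw [hd_push]; simpa [h.ne', h.symm] using h2
      have h4 : hd (push Γ p w δ) v ≠ some (!ε) := by
        rw [hd_push]; simpa [h.ne, h] using h1
      rw [pp_of_ne h1, pp_of_ne h2, pp_of_ne h3, pp_of_ne h4, push_comm _ h]

def rel (τ : Equiv.Perm V) (p : Pil V) : Pil V := fun u => p (τ u)

def IsAut (Γ : SimpleGraph V) (τ : Equiv.Perm V) : Prop := ∀ u v, Γ.Adj (τ u) (τ v) ↔ Γ.Adj u v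

theorem IsAut.inv {τ : Equiv.Perm V} (h : IsAut Γ τ) : IsAut Γ τ⁻¹ := by
  intro u v
  rw [← h]; simp

theorem rel_push {τ : Equiv.Perm V} (h : IsAut Γ τ) (p : Pil V) (v : V) (ε : Bool) :
    rel τ (push Γ p (τ v) ε) = push Γ (rel τ p) v ε := by
  funext u
  simp [rel, push, h u v]

theorem rel_pop {τ : Equiv.Perm V} (h : IsAut Γ τ) (p : Pil V) (v : V) :
    rel τ (pop Γ p (τ v)) = pop Γ (rel τ p) v := by
  funext u
  simp [rel, pop, h u v]

theorem rel_pp {τ : Equiv.Perm V} (h : IsAut Γ τ) (p : Pil V) (v : V) (ε : Bool) :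
    rel τ (pp Γ p (τ v) ε) = pp Γ (rel τ p) v ε := by
  unfold pp
  have : hd (rel τ p) v = hd p (τ v) := rfl
  rw [this]
  split_ifs
  · exact rel_pop h p v
  · exact rel_push h p v ε

theorem rel_valid {τ : Equiv.Perm V} (h : IsAut Γ τ) {p : Pil V} (hp : Valid Γ p) :
    Valid Γ (rel τ p) := by
  induction hp with
  | nil => exact Valid.nil
  | push q w δ hq hw ih =>
    obtain ⟨v, rfl⟩ := τ.surjective w
    rw [rel_push h]
    exact Valid.push _ _ _ ih hw

noncomputable def step (Γ : SimpleGraph V) (σ : Equiv.Perm V) (p : Pil V) : Y V → Pil V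
  | (some v, ε) => pp Γ p v ε
  | (none, true) => rel σ⁻¹ p
  | (none, false) => rel σ p

noncomputable def run (Γ : SimpleGraph V) (σ : Equiv.Perm V) (p : Pil V) (w : List (Y V)) : Pil V :=
  w.foldl (step Γ σ) p

variable {σ : Equiv.Perm V}

noncomputable def gen (h : IsAut Γ σ) : Option V → Equiv.Perm {p : Pil V // Valid Γ p}
  | some v => ⟨fun p => ⟨pp Γ p.1 v false, pp_valid p.2 v false⟩,
      fun p => ⟨pp Γ p.1 v true, pp_valid p.2 v true⟩,
      fun p => Subtype.ext (pp_inv p.2 v false), fun p => Subtype.ext (pp_inv p.2 v true)⟩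
  | none => ⟨fun p => ⟨rel σ p.1, rel_valid h p.2⟩, fun p => ⟨rel σ⁻¹ p.1, rel_valid h.inv p.2⟩,
      fun p => Subtype.ext (by funext u; simp [rel]), fun p => Subtype.ext (by funext u; simp [rel])⟩

theorem gen_pow (h : IsAut Γ σ) (n : ℕ) (p : {p : Pil V // Valid Γ p}) :
    ((gen h none ^ n) p).1 = rel (σ ^ n) p.1 := by
  induction n with
  | zero => rfl
  | succ n ih =>
    rw [pow_succ', Equiv.Perm.mul_apply]
    change rel σ ((gen h none ^ n) p).1 = _
    rw [ih]; funext u; simp [rel, pow_succ]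

theorem gen_rels (h : IsAut Γ σ) : ∀ r ∈ rels Γ σ, FreeGroup.lift (gen h) r = 1 := by
  rintro r (⟨u, v, huv, rfl⟩ | rfl | ⟨v, rfl⟩)
  · simp only [map_mul, map_inv, FreeGroup.lift_apply_of]
    have : gen h (some u) * gen h (some v) = gen h (some v) * gen h (some u) := by
      ext1 p
      apply Subtype.ext
      exact pp_comm p.2 huv.symm false false
    rw [this]; group
  · simp only [map_pow, FreeGroup.lift_apply_of]
    ext1 p
    apply Subtype.ext
    rw [gen_pow, pow_orderOf_eq_one]; rfl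
  · simp only [map_mul, map_inv, FreeGroup.lift_apply_of]
    have : gen h (some v) * gen h none = gen h none * gen h (some (σ v)) := by
      ext1 p
      apply Subtype.ext
      exact (rel_pp h p.1 v false).symm
    rw [mul_assoc (gen h none)⁻¹, this]; group

noncomputable def rho (h : IsAut Γ σ) : PresentedGroup (rels Γ σ) →* Equiv.Perm {p : Pil V // Valid Γ p} :=
  PresentedGroup.toGroup (gen_rels h)

theorem rho_ev (h : IsAut Γ σ) (y : Y V) (p : {p : Pil V // Valid Γ p}) :
    ((rho h (ev Γ σ y))⁻¹ p).1 = step Γ σ p.1 y := by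
  obtain ⟨a, ε⟩ := y
  cases a <;> cases ε <;> simp [rho, ev, step] <;> rfl

theorem eval_cons (y : Y V) (w : List (Y V)) : eval Γ σ (y :: w) = ev Γ σ y * eval Γ σ w := by
  simp [eval]

theorem eval_append (w w' : List (Y V)) : eval Γ σ (w ++ w') = eval Γ σ w * eval Γ σ w' := by
  simp [eval]

theorem eval_nil : eval Γ σ [] = 1 := by simp [eval]

theorem rho_eval (h : IsAut Γ σ) (w : List (Y V)) (p : {p : Pil V // Valid Γ p}) :
    ((rho h (eval Γ σ w))⁻¹ p).1 = run Γ σ p.1 w := by
  induction w generalizing p with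
  | nil => simp [eval_nil, run]
  | cons y w ih =>
    rw [eval_cons, map_mul, mul_inv_rev, Equiv.Perm.mul_apply, ih, rho_ev]; rfl

theorem run_eq (h : IsAut Γ σ) {w w' : List (Y V)} (e : eval Γ σ w = eval Γ σ w') :
    run Γ σ (fun _ => []) w = run Γ σ (fun _ => []) w' := by
  have h1 := rho_eval h w ⟨_, Valid.nil⟩
  have h2 := rho_eval h w' ⟨_, Valid.nil⟩
  rw [e] at h1
  exact h1.symm.trans h2

def aa (w : List (Y V)) : ℕ := w.countP (fun y => y.1.isSome)

def bb (w : List (Y V)) : ℕ := w.countP (fun y => y.1.isNone)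

theorem aa_add_bb (w : List (Y V)) : w.length = aa w + bb w := by
  induction w with
  | nil => rfl
  | cons y w ih =>
    obtain ⟨a, ε⟩ := y
    cases a <;> simp [aa, bb, List.countP_cons] at * <;> omega

variable [Fintype V]

def size (p : Pil V) : ℕ := ∑ v, (p v).countP Option.isSome

theorem size_push (p : Pil V) (v : V) (ε : Bool) : size (push Γ p v ε) = size p + 1 := by
  unfold size
  have : ∀ u, (push Γ p v ε u).countP Option.isSome =
      (p u).countP Option.isSome + if u = v then 1 else 0 := by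
    intro u
    unfold push
    by_cases h1 : u = v
    · simp [h1]
    · by_cases h2 : Γ.Adj u v <;> simp [h1, h2]
  simp [this, Finset.sum_add_distrib]

theorem size_pop (p : Pil V) (v : V) : size (pop Γ p v) ≤ size p := by
  unfold size
  apply Finset.sum_le_sum
  intro u _
  unfold pop
  split_ifs
  · exact le_rfl
  · exact (List.tail_sublist _).countP_le

theorem size_rel (τ : Equiv.Perm V) (p : Pil V) : size (rel τ p) = size p :=
  Equiv.sum_comp τ (fun v => (p v).countP Option.isSome)

theorem size_run (w : List (Y V)) (p : Pil V) : size (run Γ σ p w) ≤ size p + aa w := by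
  induction w generalizing p with
  | nil => simp [run]
  | cons y w ih =>
    have h1 := ih (step Γ σ p y)
    change size (run Γ σ (step Γ σ p y) w) ≤ _
    obtain ⟨a, ε⟩ := y
    cases a with
    | none =>
      have : size (step Γ σ p (none, ε)) = size p := by cases ε <;> exact size_rel _ _
      simp [aa] at *; omega
    | some v =>
      have : size (step Γ σ p (some v, ε)) ≤ size p + 1 := by
        change size (pp Γ p v ε) ≤ _
        unfold pp
        split_ifs
        · exact (size_pop p v).trans (Nat.le_succ _)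
        · exact (size_push p v ε).le
      simp [aa] at *; omega

end Pool.Agent.H.MP_7325c9_al
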