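import Pool.Agent.H.MP_7325c9_al.Pil

set_option autoImplicit false

namespace Pool.Agent.H.MP_7325c9_al

open Classical

variable {V : Type} {Γ : SimpleGraph V} {σ : Equiv.Perm V}

def mv (σ : Equiv.Perm V) (v : V) : Y V → V
  | (some _, _) => v
  | (none, true) => σ v
  | (none, false) => σ⁻¹ v

def ok (Γ : SimpleGraph V) (v : V) : Y V → Prop
  | (some u, _) => Γ.Adj u v
  | (none, _) => True

inductive Canc (Γ : SimpleGraph V) (σ : Equiv.Perm V) (ε : Bool) : V → List (Y V) → ℕ → Prop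
  | here (v : V) (l : List (Y V)) : Canc Γ σ ε v ((some v, !ε) :: l) 0
  | pass (v : V) (y : Y V) (l : List (Y V)) (d : ℕ) :
      ok Γ v y → Canc Γ σ ε (mv σ v y) l d → Canc Γ σ ε v (y :: l) (d + 1)

inductive Trk (Γ : SimpleGraph V) (σ : Equiv.Perm V) : V → List (Y V) → V → Prop
  | nil (v : V) : Trk Γ σ v [] v
  | cons (v : V) (y : Y V) (l : List (Y V)) (v' : V) :
      ok Γ v y → Trk Γ σ (mv σ v y) l v' → Trk Γ σ v (y :: l) v'

theorem Trk.snoc {v v' : V} {l : List (Y V)} (h : Trk Γ σ v l v') {y : Y V} (hy : ok Γ v' y) :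
    Trk Γ σ v (l ++ [y]) (mv σ v' y) := by
  induction h with
  | nil v => exact Trk.cons _ _ _ _ hy (Trk.nil _)
  | cons v z l v' hz _ ih => exact Trk.cons _ _ _ _ hz (ih hy)

theorem Trk.canc {ε : Bool} {v v' : V} {l : List (Y V)} (h : Trk Γ σ v l v') {r : List (Y V)}
    {d : ℕ} (hc : Canc Γ σ ε v' r d) : Canc Γ σ ε v (l ++ r) (l.length + d) := by
  induction h with
  | nil v => simpa using hc
  | cons v z l v' hz _ ih =>
    have := Canc.pass v z (l ++ r) _ hz (ih hc)
    rw [List.length_cons, show l.length + 1 + d = l.length + d + 1 by omega]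
    exact this

theorem canc_split {ε : Bool} (a : List (Y V)) {v : V} {r : List (Y V)} {d : ℕ}
    (h : Canc Γ σ ε v (a ++ r) d) :
    (∀ r', Canc Γ σ ε v (a ++ r') d) ∨
      ∃ v' d', Trk Γ σ v a v' ∧ d = a.length + d' ∧ Canc Γ σ ε v' r d' := by
  induction a generalizing v d with
  | nil => exact Or.inr ⟨v, d, Trk.nil _, by simp, h⟩
  | cons y a ih =>
    rw [List.cons_append] at h
    cases h with
    | here => exact Or.inl fun r' => Canc.here _ _
    | pass _ _ _ d hy hc =>
      rcases ih hc with h1 | ⟨v', d', h1, h2, h3⟩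
      · exact Or.inl fun r' => Canc.pass _ _ _ _ hy (h1 r')
      · exact Or.inr ⟨v', d', Trk.cons _ _ _ _ hy h1, by simp; omega, h3⟩

theorem Canc.append {ε : Bool} {v : V} {l : List (Y V)} {d : ℕ} (h : Canc Γ σ ε v l d)
    (r : List (Y V)) : Canc Γ σ ε v (l ++ r) d := by
  induction h with
  | here v l => exact Canc.here _ _
  | pass v y l d hy _ ih => exact Canc.pass _ _ _ _ hy ih

theorem adj_mv (h : IsAut Γ σ) {x v : V} (y : Y V) (hx : Γ.Adj x v) :
    Γ.Adj (mv σ x y) (mv σ v y) := by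
  obtain ⟨a, ε⟩ := y
  cases a with
  | some u => exact hx
  | none =>
    cases ε
    · exact (h.inv x v).2 hx
    · exact (h x v).2 hx

theorem canc_cons_inv {ε : Bool} {v : V} {y : Y V} {l : List (Y V)} {d : ℕ}
    (h : Canc Γ σ ε v (y :: l) d) :
    (y = (some v, !ε) ∧ d = 0) ∨
      ∃ d', d = d' + 1 ∧ ok Γ v y ∧ Canc Γ σ ε (mv σ v y) l d' := by
  cases h with
  | here => exact Or.inl ⟨rfl, rfl⟩
  | pass _ _ _ d hy hc => exact Or.inr ⟨d, rfl, hy, hc⟩

theorem canc_swap (h : IsAut Γ σ) {ε : Bool} {x v : V} {y : Y V} {r : List (Y V)} {d : ℕ}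
    (hc : Canc Γ σ ε v ((some x, ε) :: y :: r) d) :
    (∀ r', Canc Γ σ ε v (y :: (some (mv σ x y), ε) :: r') 0) ∨
      ∃ v' d', d = 2 + d' ∧ Canc Γ σ ε v' r d' ∧ Trk Γ σ v [y, (some (mv σ x y), ε)] v' := by
  rcases canc_cons_inv hc with ⟨h1, -⟩ | ⟨d1, rfl, hx, h1⟩
  · cases ε <;> simp at h1
  · have hx' : Γ.Adj x v := hx
    change Canc Γ σ ε v (y :: r) d1 at h1
    rcases canc_cons_inv h1 with ⟨rfl, -⟩ | ⟨d2, rfl, hy, h2⟩
    · exact Or.inl fun r' => Canc.here _ _
    · refine Or.inr ⟨mv σ v y, d2, by omega, h2, Trk.cons _ _ _ _ hy ?_⟩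
      exact Trk.cons _ _ _ _ (adj_mv h y hx') (Trk.nil _)

def pw (w : List (Y V)) : ℕ → List (Y V)
  | 0 => []
  | n + 1 => w ++ pw w n

theorem pw_rot (y : Y V) (a : List (Y V)) (N : ℕ) :
    pw (y :: a) N ++ [y] = y :: pw (a ++ [y]) N := by
  induction N with
  | zero => rfl
  | succ n ih => simp [pw, ih]

theorem canc_pw (h : IsAut Γ σ) {ε : Bool} (x : V) (y : Y V) (a : List (Y V)) (N : ℕ) {v : V}
    {d : ℕ} (hc : Canc Γ σ ε v (pw (a ++ [(some x, ε), y]) N) d) :
    ∃ d' ≤ d, Canc Γ σ ε v (pw (a ++ [y, (some (mv σ x y), ε)]) N) d' := by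
  induction N generalizing v d with
  | zero => exact ⟨d, le_rfl, hc⟩
  | succ n ih =>
    simp only [pw, List.append_assoc] at hc ⊢
    rcases canc_split a hc with h1 | ⟨v1, d1, h1, rfl, h2⟩
    · exact ⟨d, le_rfl, h1 _⟩
    · rcases canc_swap h h2 with h3 | ⟨v2, d2, rfl, h3, h4⟩
      · exact ⟨a.length + 0, by omega, h1.canc (h3 _)⟩
      · obtain ⟨d3, hd3, h5⟩ := ih h3
        refine ⟨a.length + (2 + d3), by omega, h1.canc ?_⟩
        exact h4.canc h5

theorem of_rel {r : FreeGroup (Option V)} (hr : r ∈ rels Γ σ) :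
    PresentedGroup.mk (rels Γ σ) r = 1 := PresentedGroup.one_of_mem hr

theorem comm_of {u v : V} (h : Γ.Adj u v) :
    Commute (PresentedGroup.of (some u) : PresentedGroup (rels Γ σ)) (PresentedGroup.of (some v)) := by
  have := of_rel (Γ := Γ) (σ := σ) (Or.inl ⟨u, v, h, rfl⟩)
  simp only [map_mul, map_inv] at this
  change PresentedGroup.of (some u) * PresentedGroup.of (some v) * (PresentedGroup.of (some u))⁻¹ *
    (PresentedGroup.of (some v) : PresentedGroup (rels Γ σ))⁻¹ = 1 at this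
  rw [mul_inv_eq_one, mul_inv_eq_iff_eq_mul] at this
  exact this

theorem t_pow : (PresentedGroup.of none : PresentedGroup (rels Γ σ)) ^ orderOf σ = 1 := by
  have := of_rel (Γ := Γ) (σ := σ) (Or.inr (Or.inl rfl))
  simp only [map_pow] at this
  exact this

theorem t_conj (v : V) : (PresentedGroup.of (some (σ v)) : PresentedGroup (rels Γ σ)) =
    (PresentedGroup.of none)⁻¹ * PresentedGroup.of (some v) * PresentedGroup.of none := by
  have := of_rel (Γ := Γ) (σ := σ) (Or.inr (Or.inr ⟨v, rfl⟩))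
  simp only [map_mul, map_inv] at this
  change (PresentedGroup.of none)⁻¹ * PresentedGroup.of (some v) * PresentedGroup.of none *
    (PresentedGroup.of (some (σ v)) : PresentedGroup (rels Γ σ))⁻¹ = 1 at this
  rw [mul_inv_eq_one] at this
  exact this.symm

theorem ev_swap {v : V} {y : Y V} (ε : Bool) (hy : ok Γ v y) :
    ev Γ σ (some v, ε) * ev Γ σ y = ev Γ σ y * ev Γ σ (some (mv σ v y), ε) := by
  obtain ⟨a, δ⟩ := y
  cases a with
  | some u =>
    have hc := comm_of (σ := σ) (show Γ.Adj u v from hy)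
    cases ε <;> cases δ <;> simp only [ev, mv, if_true, Bool.false_eq_true, if_false]
    · exact hc.symm.inv_inv.eq
    · exact hc.symm.inv_left.eq
    · exact hc.symm.inv_right.eq
    · exact hc.symm.eq
  | none =>
    have h1 := t_conj (Γ := Γ) (σ := σ) v
    have h2 := t_conj (Γ := Γ) (σ := σ) (σ⁻¹ v)
    rw [show σ (σ⁻¹ v) = v by simp] at h2
    cases ε <;> cases δ <;> simp only [ev, mv, if_true, Bool.false_eq_true, if_false]
    · rw [h2]; group
    · rw [h1]; group
    · rw [h2]; group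
    · rw [h1]; group

theorem ev_cancel (v : V) (ε : Bool) : ev Γ σ (some v, ε) * ev Γ σ (some v, !ε) = 1 := by
  cases ε <;> simp [ev]

theorem conj_rot (a b : List (Y V)) : IsConj (eval Γ σ (a ++ b)) (eval Γ σ (b ++ a)) := by
  rw [eval_append, eval_append]
  exact isConj_iff.2 ⟨(eval Γ σ a)⁻¹, by group⟩

theorem shorten (h : IsAut Γ σ) (ε : Bool) (d : ℕ) : ∀ (x : V) (w : List (Y V)) (N : ℕ),
    Canc Γ σ ε x (pw (w ++ [(some x, ε)]) N) d →
    ∃ w2, IsConj (eval Γ σ ((some x, ε) :: w)) (eval Γ σ w2) ∧ w2.length < w.length + 1 := by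
  induction d using Nat.strong_induction_on with
  | _ d ih =>
    intro x w N hc
    cases N with
    | zero => cases hc
    | succ N =>
      cases w with
      | nil =>
        rcases canc_cons_inv (show Canc Γ σ ε x ((some x, ε) :: pw [(some x, ε)] N) d from hc) with
          ⟨h1, -⟩ | ⟨d1, -, h1, -⟩
        · cases ε <;> simp at h1
        · exact absurd (show Γ.Adj x x from h1) (Γ.irrefl)
      | cons y w =>
        have hc2 := hc.append [y]
        rw [List.cons_append, pw_rot] at hc2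
        rcases canc_cons_inv hc2 with ⟨rfl, -⟩ | ⟨d1, rfl, hy, h1⟩
        · refine ⟨w, ?_, by simp⟩
          rw [eval_cons, eval_cons, ← mul_assoc, ev_cancel, one_mul]
        · rw [List.append_assoc] at h1
          obtain ⟨d2, hd2, h2⟩ := canc_pw h x y w (N + 1) h1
          have h3 : w ++ [y, (some (mv σ x y), ε)] = (w ++ [y]) ++ [(some (mv σ x y), ε)] := by simp
          rw [h3] at h2
          obtain ⟨w2, h4, h5⟩ := ih d2 (by omega) _ _ _ h2
          refine ⟨w2, IsConj.trans ?_ h4, by simpa using h5⟩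
          have e : eval Γ σ ((some x, ε) :: y :: w) =
              eval Γ σ ([y] ++ ((some (mv σ x y), ε) :: w)) := by
            rw [List.singleton_append, eval_cons, eval_cons, eval_cons, eval_cons, ← mul_assoc,
              ev_swap ε hy, mul_assoc]
          rw [e]
          exact conj_rot _ _

theorem pw_locate (w : List (Y V)) (N : ℕ) (l1 : List (Y V)) (x : Y V) (l2 : List (Y V))
    (h : pw w N = l1 ++ x :: l2) :
    ∃ w1 w2 r, w = w1 ++ x :: w2 ∧ l2 ++ r = pw (w2 ++ w1 ++ [x]) N := by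
  induction N generalizing l1 with
  | zero => simp [pw] at h
  | succ n ih =>
    have key : ∀ c, pw w n = c ++ x :: l2 →
        ∃ w1 w2 r, w = w1 ++ x :: w2 ∧ l2 ++ r = pw (w2 ++ w1 ++ [x]) (n + 1) := by
      intro c hc
      obtain ⟨w1, w2, r, h1, h2⟩ := ih c hc
      refine ⟨w1, w2, r ++ (w2 ++ w1 ++ [x]), h1, ?_⟩
      rw [← List.append_assoc, h2]
      generalize w2 ++ w1 ++ [x] = z
      clear * -
      induction n with
      | zero => simp [pw]
      | succ n ih => rw [pw, List.append_assoc, ih]; rfl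
    rw [pw, List.append_eq_append_iff] at h
    rcases h with ⟨c, -, h2⟩ | ⟨c, h1, h2⟩
    · exact key c h2
    · cases c with
      | nil => exact key [] h2.symm
      | cons z c =>
        rw [List.cons_append, List.cons.injEq] at h2
        obtain ⟨rfl, rfl⟩ := h2
        refine ⟨l1, c, l1 ++ [x], h1, ?_⟩
        subst h1
        clear * -
        induction n with
        | zero => simp [pw]
        | succ n ih =>
          rw [pw, pw, ← ih]; simp

theorem shorten' (h : IsAut Γ σ) {w : List (Y V)} {N : ℕ} {l1 l2 : List (Y V)} {x : V} {ε : Bool}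
    {d : ℕ} (e : pw w N = l1 ++ (some x, ε) :: l2) (hc : Canc Γ σ ε x l2 d) :
    ∃ w2, IsConj (eval Γ σ w) (eval Γ σ w2) ∧ w2.length < w.length := by
  obtain ⟨w1, w2, r, rfl, h2⟩ := pw_locate w N l1 _ l2 e
  have h3 := hc.append r
  rw [h2] at h3
  obtain ⟨w3, h4, h5⟩ := shorten h ε d x _ N h3
  refine ⟨w3, IsConj.trans (conj_rot _ _) h4, ?_⟩
  simp at h5 ⊢; omega

end Pool.Agent.H.MP_7325c9_al
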